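import Pool.Agent.Helper26.PP.Reveal
import Pool.Agent.Helper88.PP.Defs

set_option autoImplicit false

/-!
MP_120218_co, project PP (popular primes), M2: phase 1.  The valuations at the elements of `P` are
almost determined by the sum of the two independent variables.
-/

open Finset

namespace Pool.Agent.Helper26.PP

open Pool.Agent.Helper15.BP Pool.Agent.Helper84.TR Pool.Agent.Helper88.RT Pool.Agent.Helper88.PP

theorem vt_top {T q : ℕ} {x : ℤ} (h : (q : ℤ) ^ T ∣ x) : vt T q x = T := by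
  unfold vt
  rw [filter_true_of_mem, card_range]
  intro t ht
  rw [mem_range] at ht
  exact (pow_dvd_pow _ ht).trans h

theorem vt_eq {T q t : ℕ} {x : ℤ} (ht : t < T) (h : (q : ℤ) ^ t ∣ x)
    (h' : ¬ (q : ℤ) ^ (t + 1) ∣ x) : vt T q x = t := by
  unfold vt
  have e : (range T).filter (fun s => (q : ℤ) ^ (s + 1) ∣ x) = range t := by
    ext s
    rw [mem_filter, mem_range, mem_range]
    constructor
    · rintro ⟨-, h1⟩
      by_contra hs
      exact h' ((pow_dvd_pow _ (by omega)).trans h1)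
    · intro hs
      exact ⟨by omega, (pow_dvd_pow _ (by omega)).trans h⟩
  rw [e, card_range]

/-- the class modulo `q ^ (t + 1)` and divisibility -/
theorem cast_zero_iff {q t : ℕ} {x : ℤ} :
    (x : ZMod (q ^ (t + 1))) = 0 ↔ (q : ℤ) ^ (t + 1) ∣ x := by
  rw [CharP.intCast_eq_zero_iff (ZMod (q ^ (t + 1))) (q ^ (t + 1))]
  push_cast
  exact Iff.rfl

/-- the mass of an event and of its complement -/
theorem mass_compl_le {Ω : Type} [Fintype Ω] {w : Ω → ℝ} (hw : IsPr w) {P P' : Ω → Prop} {σ : ℝ}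
    (h : σ < mass w P') (hP : ∀ o, P o → ¬ P' o) : mass w P ≤ 1 - σ := by
  have h1 := mass_not hw P'
  have h2 := mass_mono hw hP
  linarith

section States

theorem BdS.empty {α β : Type} {f : ℤ → α} {f' : ℤ → β} {η c : ℝ} {A A' : ℤ → Prop}
    (h : ∀ x, ¬ A x) : BdS η c f f' A A' := by
  intro Ω Ω' _ _ w w' X Z hw _ hX _
  exfalso
  have h1 : ∃ o, w o ≠ 0 := by
    by_contra hc
    push Not at hc
    have h2 := hw.sum_one
    rw [sum_eq_zero fun o _ => hc o] at h2
    exact zero_ne_one h2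
  obtain ⟨o, ho⟩ := h1
  exact h _ (hX o ho)

/-- both valuations are known -/
theorem stRR {α β : Type} {f : ℤ → α} {f' : ℤ → β} {η c : ℝ} (v : ℤ → ℕ) (a b : ℕ)
    (h : BdS η c f f' (fun _ => True) (fun _ => True)) :
    BdS η c (fun x => (f x, v x)) (fun x => (f' x, v x)) (fun x => v x = a) (fun x => v x = b) := by
  refine BdS.const (h.mono le_rfl (fun _ _ => trivial) (fun _ _ => trivial)) ?_ ?_
  · intro x y hx hy
    rw [hx, hy]
  · intro x y hx hy
    rw [hx, hy]

/-- the properties of the valuation which are used -/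
structure IsVal (T q : ℕ) (v : ℤ → ℕ) : Prop where
  top : ∀ x : ℤ, (q : ℤ) ^ T ∣ x → v x = T
  eq : ∀ (t : ℕ) (x : ℤ), t < T → (q : ℤ) ^ t ∣ x → ¬ (q : ℤ) ^ (t + 1) ∣ x → v x = t

/-- `colStep` for one value of `σ` -/
def ColS (η σ : ℝ) : Prop :=
    ∀ (α β : Type) (f : ℤ → α) (f' : ℤ → β) (c : ℝ) (A A' : ℤ → Prop) (m : ℕ)
      (Ω Ω' : Type) [Fintype Ω] [Fintype Ω'] (w : Ω → ℝ) (w' : Ω' → ℝ) (X : Ω → ℤ) (Z : Ω' → ℤ),
      (∀ a b : ZMod m, BdS η c f f' (fun x => A x ∧ (x : ZMod m) = a)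
        (fun x => A' x ∧ (x : ZMod m) = b)) →
      IsPr w → IsPr w' → (∀ o, w o ≠ 0 → A (X o)) → (∀ o, w' o ≠ 0 → A' (Z o)) →
      (mass w (fun o => (X o : ZMod m) ≠ 0) ≤ σ ∨ mass w' (fun o => (Z o : ZMod m) ≠ 0) ≤ σ) →
      CE (prodW w w') (fun p => (f (X p.1), f' (Z p.2))) (fun p => X p.1 + Z p.2) ≤
        η * (Ent w X + Ent w' Z) + c

/-- one valuation is known -/
theorem stRU {η σ b₀ : ℝ} (hη : 0 < η) (hcol : ColS η σ)
    (hb₀' : 0 < b₀) (hb₀s : σ * b₀ = 2 * Real.log 2) {α β : Type} {f : ℤ → α} {f' : ℤ → β} {c : ℝ}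
    {T q : ℕ} {v : ℤ → ℕ} (hv : IsVal T q v) (h : BdS η c f f' (fun _ => True) (fun _ => True)) :
    ∀ (n t a : ℕ), t + n = T →
      BdS η (c + b₀) (fun x => (f x, v x)) (fun x => (f' x, v x))
        (fun x => v x = a) (fun x => (q : ℤ) ^ t ∣ x) := by
  intro n
  induction n with
  | zero =>
    intro t a ht
    rw [add_zero] at ht
    subst ht
    exact (stRR v a t h).mono (by linarith) (fun x hx => hx) fun x hx => hv.top x hx
  | succ n ih =>
    intro t a ht
    have hRR : BdS η c (fun x => (f x, v x)) (fun x => (f' x, v x))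
        (fun x => v x = a) (fun x => v x = t) := stRR v a t h
    have hz : ∀ x : ℤ, (q : ℤ) ^ t ∣ x → ¬ (q : ℤ) ^ (t + 1) ∣ x → v x = t :=
      fun x h1 h2 => hv.eq t x (by omega) h1 h2
    have h1 := ih (t + 1) a (by omega)
    intro Ω Ω' _ _ w w' X Z hw hw' hX hZ
    by_cases hm : mass w' (fun o => (Z o : ZMod (q ^ (t + 1))) ≠ 0) ≤ σ
    · refine hcol (α × ℕ) (β × ℕ) (fun x => (f x, v x)) (fun x => (f' x, v x)) (c + b₀)
        (fun x => v x = a) (fun x => (q : ℤ) ^ t ∣ x) (q ^ (t + 1)) Ω Ω' w w' X Z ?_ hw hw' hX hZ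
        (Or.inr hm)
      intro a' b'
      by_cases hb : b' = 0
      · refine h1.mono le_rfl (fun x hx => hx.1) fun x hx => ?_
        rw [hb] at hx
        exact cast_zero_iff.1 hx.2
      · refine hRR.mono (by linarith) (fun x hx => hx.1) fun x hx => ?_
        refine hz x hx.1 fun h1 => hb ?_
        rw [← hx.2]
        exact cast_zero_iff.2 h1
    · rw [not_le] at hm
      have h2 := bitStep (A := fun x => v x = a)
        (A' := fun x => (q : ℤ) ^ t ∣ x) (B := fun _ => True)
        (B' := fun x => (q : ℤ) ^ (t + 1) ∣ x) hη (c₁ := c + b₀) (c₂ := c) (by linarith)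
        (f := fun x => (f x, v x)) (f' := fun x => (f' x, v x))
        (h1.mono le_rfl (fun x hx => hx.1) fun x hx => hx.2)
        (hRR.mono le_rfl (fun x hx => hx.1) fun x hx => hz x hx.1 hx.2)
        (BdS.empty fun x hx => hx.2 trivial)
        (hRR.mono le_rfl (fun x hx => hx.1) fun x hx => hz x hx.1 hx.2)
        hw hw' hX hZ
      refine h2.trans ?_
      have h3 : mass w (fun _ => True) = 1 := mass_true hw
      have h4 : mass w' (fun o => (q : ℤ) ^ (t + 1) ∣ Z o) ≤ 1 - σ :=
        mass_compl_le hw' hm fun o ho hn => hn (cast_zero_iff.2 ho)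
      rw [h3, one_mul]
      have h5 : (c + b₀ - c) * mass w' (fun o => (q : ℤ) ^ (t + 1) ∣ Z o) ≤
          b₀ * (1 - σ) := by
        rw [add_sub_cancel_left]
        exact mul_le_mul_of_nonneg_left h4 hb₀'.le
      linarith

/-- no valuation is known -/
theorem stUU {η σ b₀ b₁ : ℝ} (hη : 0 < η) (hcol : ColS η σ) (hσ : 0 < σ) (hσ2 : σ ≤ 1 / 2)
    (hb₀' : 0 < b₀) (hb₀s : σ * b₀ = 2 * Real.log 2) (hb01 : b₀ ≤ b₁)
    (hb₁s : σ * b₁ = 2 * Real.log 2 + b₀) {α β : Type} {f : ℤ → α} {f' : ℤ → β} {c : ℝ}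
    {T q : ℕ} {v : ℤ → ℕ} (hv : IsVal T q v) (h : BdS η c f f' (fun _ => True) (fun _ => True)) :
    ∀ (n t : ℕ), t + n = T →
      BdS η (c + b₁) (fun x => (f x, v x)) (fun x => (f' x, v x))
        (fun x => (q : ℤ) ^ t ∣ x) (fun x => (q : ℤ) ^ t ∣ x) := by
  intro n
  induction n with
  | zero =>
    intro t ht
    rw [add_zero] at ht
    subst ht
    exact (stRR v t t h).mono (by linarith) (fun x hx => hv.top x hx) fun x hx => hv.top x hx
  | succ n ih =>
    intro t ht
    have hRR : BdS η c (fun x => (f x, v x)) (fun x => (f' x, v x))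
        (fun x => v x = t) (fun x => v x = t) := stRR v t t h
    have hz : ∀ x : ℤ, (q : ℤ) ^ t ∣ x → ¬ (q : ℤ) ^ (t + 1) ∣ x → v x = t :=
      fun x h1 h2 => hv.eq t x (by omega) h1 h2
    have hRU : BdS η (c + b₀) (fun x => (f x, v x)) (fun x => (f' x, v x))
        (fun x => v x = t) (fun x => (q : ℤ) ^ (t + 1) ∣ x) :=
      stRU hη hcol hb₀' hb₀s hv h n (t + 1) t (by omega)
    have hUR : BdS η (c + b₀) (fun x => (f x, v x)) (fun x => (f' x, v x))
        (fun x => (q : ℤ) ^ (t + 1) ∣ x) (fun x => v x = t) :=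
      (stRU hη hcol hb₀' hb₀s hv h.swap n (t + 1) t (by omega)).swap
    have hUU := ih (t + 1) (by omega)
    intro Ω Ω' _ _ w w' X Z hw hw' hX hZ
    by_cases hm : mass w (fun o => (X o : ZMod (q ^ (t + 1))) ≠ 0) ≤ σ ∨
        mass w' (fun o => (Z o : ZMod (q ^ (t + 1))) ≠ 0) ≤ σ
    · refine hcol (α × ℕ) (β × ℕ) (fun x => (f x, v x)) (fun x => (f' x, v x)) (c + b₁)
        (fun x => (q : ℤ) ^ t ∣ x) (fun x => (q : ℤ) ^ t ∣ x) (q ^ (t + 1)) Ω Ω' w w' X Z ?_ hw hw'
        hX hZ hm
      intro a' b'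
      by_cases ha : a' = 0
      · by_cases hb : b' = 0
        · refine hUU.mono le_rfl (fun x hx => ?_) fun x hx => ?_
          · rw [ha] at hx
            exact cast_zero_iff.1 hx.2
          · rw [hb] at hx
            exact cast_zero_iff.1 hx.2
        · refine hUR.mono (by linarith) (fun x hx => ?_) fun x hx => ?_
          · rw [ha] at hx
            exact cast_zero_iff.1 hx.2
          · refine hz x hx.1 fun h1 => hb ?_
            rw [← hx.2]
            exact cast_zero_iff.2 h1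
      · by_cases hb : b' = 0
        · refine hRU.mono (by linarith) (fun x hx => ?_) fun x hx => ?_
          · refine hz x hx.1 fun h1 => ha ?_
            rw [← hx.2]
            exact cast_zero_iff.2 h1
          · rw [hb] at hx
            exact cast_zero_iff.1 hx.2
        · refine hRR.mono (by linarith) (fun x hx => ?_) fun x hx => ?_
          · refine hz x hx.1 fun h1 => ha ?_
            rw [← hx.2]
            exact cast_zero_iff.2 h1
          · refine hz x hx.1 fun h1 => hb ?_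
            rw [← hx.2]
            exact cast_zero_iff.2 h1
    · push Not at hm
      obtain ⟨hm1, hm2⟩ := hm
      have h2 := bitStep (A := fun x => (q : ℤ) ^ t ∣ x)
        (A' := fun x => (q : ℤ) ^ t ∣ x) (B := fun x => (q : ℤ) ^ (t + 1) ∣ x)
        (B' := fun x => (q : ℤ) ^ (t + 1) ∣ x) hη (c₁ := c + b₁) (c₂ := c + b₀) (by linarith)
        (f := fun x => (f x, v x)) (f' := fun x => (f' x, v x))
        (hUU.mono le_rfl (fun x hx => hx.2) fun x hx => hx.2)
        (hUR.mono le_rfl (fun x hx => hx.2) fun x hx => hz x hx.1 hx.2)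
        (hRU.mono le_rfl (fun x hx => hz x hx.1 hx.2) fun x hx => hx.2)
        (hRR.mono (by linarith) (fun x hx => hz x hx.1 hx.2) fun x hx => hz x hx.1 hx.2)
        hw hw' hX hZ
      refine h2.trans ?_
      have h3 : mass w (fun o => (q : ℤ) ^ (t + 1) ∣ X o) ≤ 1 - σ :=
        mass_compl_le hw hm1 fun o ho hn => hn (cast_zero_iff.2 ho)
      have h4 : mass w' (fun o => (q : ℤ) ^ (t + 1) ∣ Z o) ≤ 1 := mass_le_one hw' _
      have h5 := mass_nonneg hw (fun o => (q : ℤ) ^ (t + 1) ∣ X o)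
      have h6 := mass_nonneg hw' (fun o => (q : ℤ) ^ (t + 1) ∣ Z o)
      have h7 : mass w (fun o => (q : ℤ) ^ (t + 1) ∣ X o) *
          mass w' (fun o => (q : ℤ) ^ (t + 1) ∣ Z o) ≤ (1 - σ) * 1 :=
        mul_le_mul h3 h4 h6 (by linarith)
      have h8 : (c + b₁ - (c + b₀)) * (mass w (fun o => (q : ℤ) ^ (t + 1) ∣ X o) *
          mass w' (fun o => (q : ℤ) ^ (t + 1) ∣ Z o)) ≤ (b₁ - b₀) * (1 - σ) := by
        have e : c + b₁ - (c + b₀) = b₁ - b₀ := by ring
        rw [e]
        exact mul_le_mul_of_nonneg_left (by linarith) (by linarith)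
      have h9 : σ * b₀ ≤ 1 / 2 * b₀ := mul_le_mul_of_nonneg_right hσ2 hb₀'.le
      linarith

theorem step_known {η : ℝ} (hη : 0 < η) : ∃ K : ℝ, 0 < K ∧ ∀ (α β : Type) (f : ℤ → α)
    (f' : ℤ → β) (c : ℝ) (T q : ℕ) (v : ℤ → ℕ), IsVal T q v →
    BdS η c f f' (fun _ => True) (fun _ => True) →
    BdS η (c + K) (fun x => (f x, v x)) (fun x => (f' x, v x)) (fun _ => True)
      (fun _ => True) := by
  obtain ⟨σ, hσ, hσ2, hcol⟩ := colStep hη
  have hl : 0 < Real.log 2 := Real.log_pos (by norm_num)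
  set b₀ : ℝ := 2 * Real.log 2 / σ with hb₀
  have hb₀' : 0 < b₀ := by positivity
  have hb₀s : σ * b₀ = 2 * Real.log 2 := by rw [hb₀]; field_simp
  set b₁ : ℝ := (2 * Real.log 2 + b₀) / σ with hb₁
  have hb₁' : 0 < b₁ := by positivity
  have hb₁s : σ * b₁ = 2 * Real.log 2 + b₀ := by rw [hb₁]; field_simp
  have hb01 : b₀ ≤ b₁ := by
    rw [hb₁, le_div_iff₀ hσ]
    nlinarith
  refine ⟨b₁, hb₁', ?_⟩
  intro α β f f' c T q v hv h
  have h1 := stUU hη hcol hσ hσ2 hb₀' hb₀s hb01 hb₁s hv h T 0 (zero_add T)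
  exact h1.mono le_rfl (fun x _ => by simp) fun x _ => by simp

end States

theorem isVal_vt (T q : ℕ) : IsVal T q (vt T q) :=
  ⟨fun _ h => vt_top h, fun _ _ ht h h' => vt_eq ht h h'⟩

/-- **Phase 1.** -/
theorem phaseOne : PhaseOne := by
  classical
  intro η hη
  obtain ⟨K, hK, hstep⟩ := step_known hη
  refine ⟨K, hK, ?_⟩
  have key : ∀ (T : ℕ) (P : Finset ℕ),
      BdS η (K * P.card) (vP T P) (vP T P) (fun _ => True) (fun _ => True) := by
    intro T P
    induction P using Finset.induction_on with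
    | empty =>
      intro Ω Ω' _ _ w w' X Z hw hw' _ _
      have hp := hw.prod hw'
      rw [card_empty, Nat.cast_zero, mul_zero, add_zero]
      have e : ∀ x, vP T ∅ x = fun _ => 0 := by
        intro x
        funext q
        unfold vP
        rw [if_neg (notMem_empty q)]
      have h1 : Ent (prodW w w') (fun p : Ω × Ω' => (vP T ∅ (X p.1), vP T ∅ (Z p.2))) = 0 := by
        rw [← Ent_const hp ()]
        apply Ent_congr
        intro o o'
        rw [e, e, e, e]
        simp
      refine (CE_le_Ent hp _ _).trans ?_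
      rw [h1]
      exact mul_nonneg hη.le (add_nonneg (Ent_nonneg hw X) (Ent_nonneg hw' Z))
    | insert q P hq ih =>
      have h1 := hstep _ _ (vP T P) (vP T P) _ T q (vt T q) (isVal_vt T q) ih
      have h2 : ∀ x y, (vP T P x, vt T q x) = (vP T P y, vt T q y) →
          vP T (insert q P) x = vP T (insert q P) y := by
        intro x y h
        rw [Prod.mk.injEq] at h
        funext l
        unfold vP
        by_cases hl : l ∈ P
        · have h3 := congrFun h.1 l
          unfold vP at h3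
          rw [if_pos hl, if_pos hl] at h3
          rw [if_pos (mem_insert_of_mem hl), if_pos (mem_insert_of_mem hl), h3]
        · by_cases hlq : l = q
          · rw [hlq, if_pos (mem_insert_self _ _), if_pos (mem_insert_self _ _), h.2]
          · rw [if_neg, if_neg]
            · rw [mem_insert]
              tauto
            · rw [mem_insert]
              tauto
      refine (h1.congr h2 h2).mono (le_of_eq ?_) (fun _ h => h) fun _ h => h
      rw [card_insert_of_notMem hq]
      push_cast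
      ring
  intro Ω Ω' _ _ w w' X Z T P hw hw'
  exact key T P Ω Ω' w w' X Z hw hw' (fun _ _ => trivial) fun _ _ => trivial

end Pool.Agent.Helper26.PP
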