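import Pool.Agent.Helper88.RT.Col

set_option autoImplicit false

/-!
MP_120218_co, project PP (popular primes), phase 1: conditioning on functions of the two
independent variables.
-/

open Finset

namespace Pool.Agent.Helper26.PP

open Pool.Agent.Helper15.BP Pool.Agent.Helper84.TR Pool.Agent.Helper88.RT

section Reveal

variable {Ω Ω' α γ δ : Type} [Fintype Ω] [Fintype Ω']

theorem image_pair [DecidableEq γ] [DecidableEq δ] (g : Ω → γ) (g' : Ω' → δ) :
    (univ : Finset (Ω × Ω')).image (fun p => (g p.1, g' p.2)) = univ.image g ×ˢ univ.image g' := by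
  ext ⟨a, b⟩
  simp only [mem_image, mem_univ, true_and, Prod.mk.injEq, mem_product, Prod.exists]
  constructor
  · rintro ⟨o, o', h, h'⟩
    exact ⟨⟨o, h⟩, ⟨o', h'⟩⟩
  · rintro ⟨⟨o, h⟩, ⟨o', h'⟩⟩
    exact ⟨o, o', h, h'⟩

/-- The entropy of `X` in terms of the entropies of `X` given `g`, for a function `g` of `X`. -/
theorem Ent_split [DecidableEq γ] {w : Ω → ℝ} (hw : IsPr w) (X : Ω → α) (g : Ω → γ)
    (hg : ∀ o o', X o = X o' → g o = g o') :
    Ent w X = Ent w g + ∑ a ∈ univ.image g, pr w g a * Ent (cw w g a) X := by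
  rw [← Ent_fib hw]
  unfold CE
  rw [Ent_congr (f := fun o => (X o, g o)) (g := X) fun o o' => by
    simp only [Prod.mk.injEq]
    exact ⟨fun h => h.1, fun h => ⟨h, hg o o' h⟩⟩]
  ring

theorem reveal [DecidableEq γ] [DecidableEq δ] {w : Ω → ℝ} {w' : Ω' → ℝ} (hw : IsPr w)
    (hw' : IsPr w') (F : Ω × Ω' → α) (X : Ω → ℤ) (Z : Ω' → ℤ) (g : Ω → γ) (g' : Ω' → δ)
    (η d : ℝ) (c : γ → δ → ℝ)
    (hd : CE (prodW w w') (fun p => (g p.1, g' p.2)) (fun p => X p.1 + Z p.2) ≤
      η * (Ent w g + Ent w' g') + d)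
    (hg : ∀ o o', X o = X o' → g o = g o') (hg' : ∀ o o', Z o = Z o' → g' o = g' o')
    (hc : ∀ a b, pr w g a ≠ 0 → pr w' g' b ≠ 0 →
      CE (prodW (cw w g a) (cw w' g' b)) F (fun p => X p.1 + Z p.2) ≤
        η * (Ent (cw w g a) X + Ent (cw w' g' b) Z) + c a b) :
    CE (prodW w w') F (fun p => X p.1 + Z p.2) ≤ η * (Ent w X + Ent w' Z) + d +
      ∑ a ∈ univ.image g, ∑ b ∈ univ.image g', pr w g a * pr w' g' b * c a b := by
  have hp := hw.prod hw'
  have h1 : CE (prodW w w') F (fun p => X p.1 + Z p.2) ≤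
      CE (prodW w w') (fun p => (F p, (g p.1, g' p.2))) (fun p => X p.1 + Z p.2) :=
    CE_mono hp fun o o' _ h => congrArg Prod.fst h
  rw [CE_chain] at h1
  have h2 : CE (prodW w w') F (fun p => ((g p.1, g' p.2), X p.1 + Z p.2)) =
      CE (prodW w w') F (fun p => (X p.1 + Z p.2, (g p.1, g' p.2))) := by
    apply CE_congr
    · intro o o'
      simp only [Prod.mk.injEq]
      tauto
    · intro o o' _
      exact Iff.rfl
  rw [h2, CE_fib hp F (fun p => X p.1 + Z p.2) (fun p => (g p.1, g' p.2)), image_pair,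
    sum_product] at h1
  have h3 : ∑ a ∈ univ.image g, ∑ b ∈ univ.image g',
      pr (prodW w w') (fun p => (g p.1, g' p.2)) (a, b) *
        CE (cw (prodW w w') (fun p => (g p.1, g' p.2)) (a, b)) F (fun p => X p.1 + Z p.2) ≤
      ∑ a ∈ univ.image g, ∑ b ∈ univ.image g', pr w g a * pr w' g' b *
        (η * (Ent (cw w g a) X + Ent (cw w' g' b) Z) + c a b) := by
    refine sum_le_sum fun a _ => sum_le_sum fun b _ => ?_
    rw [pr_prod, cw_prod]
    by_cases ha : pr w g a = 0
    · rw [ha, zero_mul, zero_mul, zero_mul]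
    by_cases hb : pr w' g' b = 0
    · rw [hb, mul_zero, zero_mul, zero_mul]
    exact mul_le_mul_of_nonneg_left (hc a b ha hb)
      (mul_nonneg (pr_nonneg hw g a) (pr_nonneg hw' g' b))
  have h4 : ∑ a ∈ univ.image g, ∑ b ∈ univ.image g', pr w g a * pr w' g' b *
        (η * (Ent (cw w g a) X + Ent (cw w' g' b) Z) + c a b) =
      η * (∑ a ∈ univ.image g, pr w g a * Ent (cw w g a) X) *
          (∑ b ∈ univ.image g', pr w' g' b) +
        η * (∑ a ∈ univ.image g, pr w g a) *
          (∑ b ∈ univ.image g', pr w' g' b * Ent (cw w' g' b) Z) +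
        ∑ a ∈ univ.image g, ∑ b ∈ univ.image g', pr w g a * pr w' g' b * c a b := by
    rw [mul_assoc, mul_assoc, sum_mul_sum, sum_mul_sum, mul_sum, mul_sum, ← sum_add_distrib,
      ← sum_add_distrib]
    refine sum_congr rfl fun a _ => ?_
    rw [mul_sum, mul_sum, ← sum_add_distrib, ← sum_add_distrib]
    refine sum_congr rfl fun b _ => ?_
    ring
  rw [sum_pr_one hw, sum_pr_one hw', mul_one, mul_one] at h4
  have h5 := Ent_split hw X g hg
  have h6 := Ent_split hw' Z g' hg'
  rw [h4] at h3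
  rw [h5, h6]
  linarith

/-- two independent variables may be exchanged -/
theorem CE_swap (w : Ω → ℝ) (w' : Ω' → ℝ) (F : Ω × Ω' → α) (X : Ω → ℤ) (Z : Ω' → ℤ) :
    CE (prodW w w') F (fun p => X p.1 + Z p.2) =
      CE (prodW w' w) (fun p => F (p.2, p.1)) (fun p => Z p.1 + X p.2) := by
  have h : ∀ o : Ω' × Ω, prodW w w' (Equiv.prodComm Ω' Ω o) = prodW w' w o := by
    intro o
    unfold prodW
    exact mul_comm _ _
  unfold CE
  rw [← Ent_equiv (Equiv.prodComm Ω' Ω) h (fun p => (F p, X p.1 + Z p.2)),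
    ← Ent_equiv (Equiv.prodComm Ω' Ω) h (fun p => X p.1 + Z p.2)]
  have e : ∀ o : Ω' × Ω, X (Equiv.prodComm Ω' Ω o).1 + Z (Equiv.prodComm Ω' Ω o).2 =
      Z o.1 + X o.2 := fun o => add_comm _ _
  congr 1
  · congr 1
    funext o
    exact Prod.ext rfl (e o)
  · congr 1
    funext o
    exact e o

end Reveal

section Known

variable {α β α' β' : Type}

/-- `H(f(X), f'(Z) | X + Z) ≤ η (H(X) + H(Z)) + c` for all independent `X`, `Z` with values in
`A`, `A'`. -/
def BdS (η c : ℝ) (f : ℤ → α) (f' : ℤ → β) (A A' : ℤ → Prop) : Prop :=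
  ∀ (Ω Ω' : Type) [Fintype Ω] [Fintype Ω'] (w : Ω → ℝ) (w' : Ω' → ℝ) (X : Ω → ℤ) (Z : Ω' → ℤ),
    IsPr w → IsPr w' → (∀ o, w o ≠ 0 → A (X o)) → (∀ o, w' o ≠ 0 → A' (Z o)) →
    CE (prodW w w') (fun p => (f (X p.1), f' (Z p.2))) (fun p => X p.1 + Z p.2) ≤
      η * (Ent w X + Ent w' Z) + c

theorem BdS.mono {η c c' : ℝ} {f : ℤ → α} {f' : ℤ → β} {A A' B B' : ℤ → Prop}
    (h : BdS η c f f' A A') (hc : c ≤ c') (hB : ∀ x, B x → A x) (hB' : ∀ x, B' x → A' x) :
    BdS η c' f f' B B' := by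
  intro Ω Ω' _ _ w w' X Z hw hw' h1 h2
  have := h Ω Ω' w w' X Z hw hw' (fun o ho => hB _ (h1 o ho)) (fun o ho => hB' _ (h2 o ho))
  linarith

theorem BdS.swap {η c : ℝ} {f : ℤ → α} {f' : ℤ → β} {A A' : ℤ → Prop}
    (h : BdS η c f f' A A') : BdS η c f' f A' A := by
  intro Ω Ω' _ _ w w' X Z hw hw' h1 h2
  have h3 := h Ω' Ω w' w Z X hw' hw h2 h1
  rw [CE_swap, add_comm (Ent w X)]
  refine le_trans (le_of_eq ?_) h3
  apply CE_congr
  · intro o o'
    exact Iff.rfl
  · intro o o' _
    simp only [Prod.mk.injEq]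
    tauto

theorem BdS.congr {η c : ℝ} {f : ℤ → α} {f' : ℤ → β} {g : ℤ → α'} {g' : ℤ → β'}
    {A A' : ℤ → Prop} (h : BdS η c f f' A A') (hf : ∀ x y, f x = f y → g x = g y)
    (hf' : ∀ x y, f' x = f' y → g' x = g' y) : BdS η c g g' A A' := by
  intro Ω Ω' _ _ w w' X Z hw hw' h1 h2
  refine le_trans ?_ (h Ω Ω' w w' X Z hw hw' h1 h2)
  apply CE_mono (hw.prod hw')
  intro o o' _ h3
  simp only [Prod.mk.injEq] at h3 ⊢
  exact ⟨hf _ _ h3.1, hf' _ _ h3.2⟩

theorem cw_supp {Ω γ : Type} [Fintype Ω] {w : Ω → ℝ} {g : Ω → γ} {a : γ} {o : Ω}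
    (h : cw w g a o ≠ 0) : g o = a ∧ w o ≠ 0 := by
  classical
  unfold cw at h
  by_cases hg : g o = a
  · rw [if_pos hg] at h
    exact ⟨hg, fun h0 => h (by rw [h0, zero_div])⟩
  · rw [if_neg hg] at h
    exact absurd rfl h

/-- additional constants cost nothing -/
theorem BdS.const {η c : ℝ} {f : ℤ → α} {f' : ℤ → β} {A A' : ℤ → Prop} {v : ℤ → α'}
    {v' : ℤ → β'} (h : BdS η c f f' A A') (hv : ∀ x y, A x → A y → v x = v y)
    (hv' : ∀ x y, A' x → A' y → v' x = v' y) :
    BdS η c (fun x => (f x, v x)) (fun x => (f' x, v' x)) A A' := by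
  intro Ω Ω' _ _ w w' X Z hw hw' h1 h2
  have hp := hw.prod hw'
  have h3 := h Ω Ω' w w' X Z hw hw' h1 h2
  have h4 : CE (prodW w w') (fun p => ((f (X p.1), v (X p.1)), (f' (Z p.2), v' (Z p.2))))
      (fun p => X p.1 + Z p.2) ≤
      CE (prodW w w') (fun p => ((f (X p.1), f' (Z p.2)), (v (X p.1), v' (Z p.2))))
      (fun p => X p.1 + Z p.2) := by
    apply CE_mono hp
    intro o o' _ h5
    simp only [Prod.mk.injEq] at h5 ⊢
    tauto
  have h5 := CE_pair_le hp (fun p : Ω × Ω' => (f (X p.1), f' (Z p.2)))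
    (fun p => (v (X p.1), v' (Z p.2))) (fun p => X p.1 + Z p.2)
  have h6 : CE (prodW w w') (fun p => (v (X p.1), v' (Z p.2))) (fun p => X p.1 + Z p.2) = 0 := by
    apply CE_zero_of_supp
    intro o o' ho ho' _
    have e1 := left_ne_zero_of_mul ho
    have e2 := right_ne_zero_of_mul ho
    have e1' := left_ne_zero_of_mul ho'
    have e2' := right_ne_zero_of_mul ho'
    exact Prod.ext (hv _ _ (h1 _ e1) (h1 _ e1')) (hv' _ _ (h2 _ e2) (h2 _ e2'))
  linarith

/-- The column step: `X` and `Z` modulo `m` are revealed. -/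
theorem colStep {η : ℝ} (hη : 0 < η) : ∃ σ : ℝ, 0 < σ ∧ σ ≤ 1 / 2 ∧
    ∀ (α β : Type) (f : ℤ → α) (f' : ℤ → β) (c : ℝ) (A A' : ℤ → Prop) (m : ℕ)
      (Ω Ω' : Type) [Fintype Ω] [Fintype Ω'] (w : Ω → ℝ) (w' : Ω' → ℝ) (X : Ω → ℤ) (Z : Ω' → ℤ),
      (∀ a b : ZMod m, BdS η c f f' (fun x => A x ∧ (x : ZMod m) = a)
        (fun x => A' x ∧ (x : ZMod m) = b)) →
      IsPr w → IsPr w' → (∀ o, w o ≠ 0 → A (X o)) → (∀ o, w' o ≠ 0 → A' (Z o)) →
      (mass w (fun o => (X o : ZMod m) ≠ 0) ≤ σ ∨ mass w' (fun o => (Z o : ZMod m) ≠ 0) ≤ σ) →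
      CE (prodW w w') (fun p => (f (X p.1), f' (Z p.2))) (fun p => X p.1 + Z p.2) ≤
        η * (Ent w X + Ent w' Z) + c := by
  classical
  obtain ⟨σ, h1, h2, hcol⟩ := group_column η hη
  refine ⟨σ, h1, h2, ?_⟩
  intro α β f f' c A A' m Ω Ω' _ _ w w' X Z hA hw hw' hX hZ hm
  have hp := hw.prod hw'
  -- the column lemma
  have key : ∀ (Ω Ω' : Type) [Fintype Ω] [Fintype Ω'] (w : Ω → ℝ) (w' : Ω' → ℝ) (X : Ω → ℤ)
      (Z : Ω' → ℤ), IsPr w → IsPr w' → mass w' (fun o => (Z o : ZMod m) ≠ 0) ≤ σ →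
      CE (prodW w w') (fun p => ((X p.1 : ZMod m), (Z p.2 : ZMod m))) (fun p => X p.1 + Z p.2) ≤
        η * (Ent w (fun o => (X o : ZMod m)) + Ent w' (fun o => (Z o : ZMod m))) := by
    intro Ω Ω' _ _ w w' X Z hw hw' hm
    have h3 := hcol Ω Ω' (ZMod m) w w' (fun o => (X o : ZMod m)) (fun o => (Z o : ZMod m))
      hw hw' hm
    refine le_trans ?_ h3
    refine (CE_anti (hw.prod hw') _ (g' := fun p => (X p.1 : ZMod m) + (Z p.2 : ZMod m)) ?_).trans
      (CE_mono (hw.prod hw') ?_)
    · intro o o' h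
      have := congrArg (fun x : ℤ => (x : ZMod m)) h
      simpa using this
    · intro o o' h4 h5
      have h6 : (X o.1 : ZMod m) = (X o'.1 : ZMod m) := h5
      have h7 : (X o.1 : ZMod m) + (Z o.2 : ZMod m) = (X o'.1 : ZMod m) + (Z o'.2 : ZMod m) := h4
      rw [h6] at h7
      exact Prod.ext h6 (add_left_cancel h7)
  have hd : CE (prodW w w') (fun p => ((X p.1 : ZMod m), (Z p.2 : ZMod m)))
      (fun p => X p.1 + Z p.2) ≤
        η * (Ent w (fun o => (X o : ZMod m)) + Ent w' (fun o => (Z o : ZMod m))) + 0 := by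
    rw [add_zero]
    rcases hm with hm | hm
    · have h3 := key Ω' Ω w' w Z X hw' hw hm
      rw [CE_swap, add_comm (Ent w _)]
      refine le_trans (le_of_eq ?_) h3
      apply CE_congr
      · intro o o'
        exact Iff.rfl
      · intro o o' _
        simp only [Prod.mk.injEq]
        tauto
    · exact key Ω Ω' w w' X Z hw hw' hm
  have h3 := reveal hw hw' (fun p => (f (X p.1), f' (Z p.2))) X Z (fun o => (X o : ZMod m))
    (fun o => (Z o : ZMod m)) η 0 (fun _ _ => c) hd (fun o o' h => by simp only [h])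
    (fun o o' h => by simp only [h]) (fun a b ha hb => by
      refine hA a b Ω Ω' _ _ X Z (cw_isPr hw _ _ ha) (cw_isPr hw' _ _ hb) ?_ ?_
      · intro o ho
        obtain ⟨h4, h5⟩ := cw_supp ho
        exact ⟨hX o h5, h4⟩
      · intro o ho
        obtain ⟨h4, h5⟩ := cw_supp ho
        exact ⟨hZ o h5, h4⟩)
  refine h3.trans (le_of_eq ?_)
  have h4 : ∑ a ∈ univ.image (fun o => (X o : ZMod m)), ∑ b ∈ univ.image (fun o => (Z o : ZMod m)),
      pr w (fun o => (X o : ZMod m)) a * pr w' (fun o => (Z o : ZMod m)) b * c = c := by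
    simp_rw [← sum_mul]
    rw [← sum_mul_sum, sum_pr_one hw, sum_pr_one hw', one_mul, one_mul]
  rw [h4, add_zero]

/-- The bit step: two bits are revealed. -/
theorem bitStep {η : ℝ} (hη : 0 < η) {f : ℤ → α} {f' : ℤ → β} {c₁ c₂ : ℝ} {A A' B B' : ℤ → Prop}
    (hc : c₂ ≤ c₁)
    (h11 : BdS η c₁ f f' (fun x => A x ∧ B x) (fun x => A' x ∧ B' x))
    (h10 : BdS η c₂ f f' (fun x => A x ∧ B x) (fun x => A' x ∧ ¬ B' x))
    (h01 : BdS η c₂ f f' (fun x => A x ∧ ¬ B x) (fun x => A' x ∧ B' x))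
    (h00 : BdS η c₂ f f' (fun x => A x ∧ ¬ B x) (fun x => A' x ∧ ¬ B' x))
    {Ω Ω' : Type} [Fintype Ω] [Fintype Ω'] {w : Ω → ℝ} {w' : Ω' → ℝ} {X : Ω → ℤ} {Z : Ω' → ℤ}
    (hw : IsPr w) (hw' : IsPr w') (hX : ∀ o, w o ≠ 0 → A (X o)) (hZ : ∀ o, w' o ≠ 0 → A' (Z o)) :
    CE (prodW w w') (fun p => (f (X p.1), f' (Z p.2))) (fun p => X p.1 + Z p.2) ≤
      η * (Ent w X + Ent w' Z) + 2 * Real.log 2 + c₂ +
        (c₁ - c₂) * (mass w (fun o => B (X o)) * mass w' (fun o => B' (Z o))) := by
  classical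
  have hp := hw.prod hw'
  have hbit : ∀ {Ω : Type} [Fintype Ω] {w : Ω → ℝ}, IsPr w → ∀ J : Ω → Prop,
      Ent w (fun o => decide (J o)) ≤ Real.log 2 := by
    intro Ω _ w hw J
    rw [Ent_congr (f := fun o => decide (J o)) (g := J) fun o o' => by
      rw [decide_eq_decide]
      exact ⟨fun h => propext h, fun h => by rw [h]⟩, Ent_event hw]
    exact Real.binEntropy_le_log_two
  have hd : CE (prodW w w') (fun p => (decide (B (X p.1)), decide (B' (Z p.2))))
      (fun p => X p.1 + Z p.2) ≤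
        η * (Ent w (fun o => decide (B (X o))) + Ent w' (fun o => decide (B' (Z o)))) +
          2 * Real.log 2 := by
    refine (CE_le_Ent hp _ _).trans ?_
    rw [Ent_prod hw hw' (fun o => decide (B (X o))) (fun o => decide (B' (Z o)))]
    have h1 := hbit hw (fun o => B (X o))
    have h2 := hbit hw' (fun o => B' (Z o))
    have h3 := Ent_nonneg hw (fun o => decide (B (X o)))
    have h4 := Ent_nonneg hw' (fun o => decide (B' (Z o)))
    have h5 : 0 ≤ η * (Ent w (fun o => decide (B (X o))) + Ent w' (fun o => decide (B' (Z o)))) :=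
      mul_nonneg hη.le (add_nonneg h3 h4)
    linarith
  have h3 := reveal hw hw' (fun p => (f (X p.1), f' (Z p.2))) X Z (fun o => decide (B (X o)))
    (fun o => decide (B' (Z o))) η (2 * Real.log 2)
    (fun a b => if a = true ∧ b = true then c₁ else c₂) hd (fun o o' h => by simp only [h])
    (fun o o' h => by simp only [h]) (fun a b ha hb => by
      have e1 := cw_isPr hw _ _ ha
      have e2 := cw_isPr hw' _ _ hb
      cases a <;> cases b
      · rw [if_neg (by simp)]
        refine h00 Ω Ω' _ _ X Z e1 e2 ?_ ?_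
        · intro o ho
          obtain ⟨h4, h5⟩ := cw_supp ho
          exact ⟨hX o h5, of_decide_eq_false h4⟩
        · intro o ho
          obtain ⟨h4, h5⟩ := cw_supp ho
          exact ⟨hZ o h5, of_decide_eq_false h4⟩
      · rw [if_neg (by simp)]
        refine h01 Ω Ω' _ _ X Z e1 e2 ?_ ?_
        · intro o ho
          obtain ⟨h4, h5⟩ := cw_supp ho
          exact ⟨hX o h5, of_decide_eq_false h4⟩
        · intro o ho
          obtain ⟨h4, h5⟩ := cw_supp ho
          exact ⟨hZ o h5, of_decide_eq_true h4⟩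
      · rw [if_neg (by simp)]
        refine h10 Ω Ω' _ _ X Z e1 e2 ?_ ?_
        · intro o ho
          obtain ⟨h4, h5⟩ := cw_supp ho
          exact ⟨hX o h5, of_decide_eq_true h4⟩
        · intro o ho
          obtain ⟨h4, h5⟩ := cw_supp ho
          exact ⟨hZ o h5, of_decide_eq_false h4⟩
      · rw [if_pos (by simp)]
        refine h11 Ω Ω' _ _ X Z e1 e2 ?_ ?_
        · intro o ho
          obtain ⟨h4, h5⟩ := cw_supp ho
          exact ⟨hX o h5, of_decide_eq_true h4⟩
        · intro o ho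
          obtain ⟨h4, h5⟩ := cw_supp ho
          exact ⟨hZ o h5, of_decide_eq_true h4⟩)
  refine h3.trans ?_
  suffices hS : ∑ a ∈ univ.image (fun o => decide (B (X o))),
      ∑ b ∈ univ.image (fun o => decide (B' (Z o))),
        pr w (fun o => decide (B (X o))) a * pr w' (fun o => decide (B' (Z o))) b *
          (if a = true ∧ b = true then c₁ else c₂) ≤ c₂ +
        (c₁ - c₂) * (mass w (fun o => B (X o)) * mass w' (fun o => B' (Z o))) by linarith
  have hmass : ∀ {Ω : Type} [Fintype Ω] (w : Ω → ℝ) (J : Ω → Prop),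
      pr w (fun o => decide (J o)) true = mass w J := by
    intro Ω _ w J
    unfold pr mass
    refine sum_congr rfl fun o _ => ?_
    by_cases h : J o <;> simp [h]
  have h4 : ∑ a ∈ univ.image (fun o => decide (B (X o))),
      ∑ b ∈ univ.image (fun o => decide (B' (Z o))),
        pr w (fun o => decide (B (X o))) a * pr w' (fun o => decide (B' (Z o))) b *
          (if a = true ∧ b = true then c₁ else c₂) =
      c₂ + ∑ a ∈ univ.image (fun o => decide (B (X o))),
      ∑ b ∈ univ.image (fun o => decide (B' (Z o))),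
        (if a = true ∧ b = true then
          (c₁ - c₂) * (pr w (fun o => decide (B (X o))) a *
            pr w' (fun o => decide (B' (Z o))) b) else 0) := by
    have h5 : c₂ = ∑ a ∈ univ.image (fun o => decide (B (X o))),
        ∑ b ∈ univ.image (fun o => decide (B' (Z o))),
          pr w (fun o => decide (B (X o))) a * pr w' (fun o => decide (B' (Z o))) b * c₂ := by
      simp_rw [← sum_mul]
      rw [← sum_mul_sum, sum_pr_one hw, sum_pr_one hw', one_mul, one_mul]
    have h8 : ∑ a ∈ univ.image (fun o => decide (B (X o))),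
      ∑ b ∈ univ.image (fun o => decide (B' (Z o))),
        pr w (fun o => decide (B (X o))) a * pr w' (fun o => decide (B' (Z o))) b *
          (if a = true ∧ b = true then c₁ else c₂) =
      ∑ a ∈ univ.image (fun o => decide (B (X o))),
        ∑ b ∈ univ.image (fun o => decide (B' (Z o))),
          pr w (fun o => decide (B (X o))) a * pr w' (fun o => decide (B' (Z o))) b * c₂ +
      ∑ a ∈ univ.image (fun o => decide (B (X o))),
      ∑ b ∈ univ.image (fun o => decide (B' (Z o))),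
        (if a = true ∧ b = true then
          (c₁ - c₂) * (pr w (fun o => decide (B (X o))) a *
            pr w' (fun o => decide (B' (Z o))) b) else 0) := by
      rw [← sum_add_distrib]
      refine sum_congr rfl fun a _ => ?_
      rw [← sum_add_distrib]
      refine sum_congr rfl fun b _ => ?_
      split_ifs
      · ring
      · ring
    rw [h8, ← h5]
  rw [h4]
  suffices hS : ∑ a ∈ univ.image (fun o => decide (B (X o))),
      ∑ b ∈ univ.image (fun o => decide (B' (Z o))),
        (if a = true ∧ b = true then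
          (c₁ - c₂) * (pr w (fun o => decide (B (X o))) a *
            pr w' (fun o => decide (B' (Z o))) b) else 0) ≤
        (c₁ - c₂) * (mass w (fun o => B (X o)) * mass w' (fun o => B' (Z o))) by linarith
  have h5 : ∀ a ∈ univ.image (fun o => decide (B (X o))),
      ∑ b ∈ univ.image (fun o => decide (B' (Z o))), (if a = true ∧ b = true then
          (c₁ - c₂) * (pr w (fun o => decide (B (X o))) a *
            pr w' (fun o => decide (B' (Z o))) b) else 0) ≤
      if a = true then (c₁ - c₂) * (pr w (fun o => decide (B (X o))) a *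
            mass w' (fun o => B' (Z o))) else 0 := by
    intro a _
    by_cases ha : a = true
    · rw [if_pos ha]
      subst ha
      simp only [true_and]
      rw [← sum_filter]
      have h6 : (univ.image (fun o => decide (B' (Z o)))).filter (fun b => b = true) ⊆ {true} := by
        intro b hb
        rw [mem_singleton]
        exact (mem_filter.1 hb).2
      refine (sum_le_sum_of_subset_of_nonneg h6 fun b _ _ => ?_).trans ?_
      · exact mul_nonneg (by linarith) (mul_nonneg (pr_nonneg hw _ _) (pr_nonneg hw' _ _))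
      · rw [sum_singleton, hmass w' (fun o => B' (Z o))]
    · rw [if_neg ha]
      refine (sum_eq_zero fun b _ => ?_).le
      rw [if_neg (fun h => ha h.1)]
  refine (sum_le_sum h5).trans ?_
  rw [← sum_filter]
  have h6 : (univ.image (fun o => decide (B (X o)))).filter (fun b => b = true) ⊆ {true} := by
    intro b hb
    rw [mem_singleton]
    exact (mem_filter.1 hb).2
  refine (sum_le_sum_of_subset_of_nonneg h6 fun b _ _ => ?_).trans ?_
  · exact mul_nonneg (by linarith) (mul_nonneg (pr_nonneg hw _ _) (mass_nonneg hw' _))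
  · rw [sum_singleton, hmass w (fun o => B (X o))]

end Known

end Pool.Agent.Helper26.PP
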